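import Mathlib
import Pool.Agent.V11324.Oscillate

set_option autoImplicit false

/-!
# MP_b23abe_pr, Q1: the stochastic hyperbolic infinite quadrangulation has positive anchored
expansion

In fact its edge Cheeger constant is at least `1/3`.
-/

namespace Pool.Agent.Results.MP_b23abe_pr.ShiqExpansion

open MeasureTheory ProbabilityTheory Filter Topology
open scoped ENNReal

/-- A multigraph with vertex set `V` and edge set `E`: every edge has two end points. -/
structure MGraph (V E : Type) where
  /-- one end point -/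
  src : E → V
  /-- the other end point -/
  tgt : E → V

namespace MGraph

variable {V E : Type} (G : MGraph V E)

/-- The edges with exactly one end point in `S`. -/
def bdry (S : Finset V) : Set E :=
  {e | (G.src e ∈ S ∧ G.tgt e ∉ S) ∨ (G.src e ∉ S ∧ G.tgt e ∈ S)}

/-- The degree of a vertex. -/
noncomputable def deg (v : V) : ℕ∞ := {e | G.src e = v}.encard + {e | G.tgt e = v}.encard

/-- The sum of the degrees of the vertices of `S`. -/
noncomputable def vol (S : Finset V) : ℕ∞ := ∑ v ∈ S, G.deg v

/-- Adjacency. -/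
def Adj (x y : V) : Prop := ∃ e, (G.src e = x ∧ G.tgt e = y) ∨ (G.src e = y ∧ G.tgt e = x)

/-- The set `S` induces a connected graph. -/
def ConnectedSet (S : Set V) : Prop :=
  ∀ x ∈ S, ∀ y ∈ S, Relation.ReflTransGen (fun a b => a ∈ S ∧ b ∈ S ∧ G.Adj a b) x y

/-- The anchored expansion constant: the limit as `n → ∞` of the infimum of `|∂S| / |S|_deg` over
all finite connected `S` containing `o` with `n ≤ |S|_deg < ∞`. (The infimum is nondecreasing in
`n`, so the lower limit is a limit.) -/
noncomputable def anchoredExpansion (o : V) : ℝ≥0∞ :=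
  liminf (fun n : ℕ => ⨅ (S : Finset V) (_ : o ∈ S ∧ G.ConnectedSet (S : Set V) ∧
    (n : ℕ∞) ≤ G.vol S ∧ G.vol S < ⊤), ((G.bdry S).encard : ℝ≥0∞) / ((G.vol S : ℕ∞) : ℝ≥0∞)) atTop

end MGraph

/-- Corners of the full ternary tree. The vertices of the tree are the lists over `Fin 3`, the
root is `[]`, and the children of `v` are `0 :: v`, `1 :: v`, `2 :: v`. The edges at a vertex are,
in clockwise order: the edge to the parent (for a vertex other than the root), the edges to the
children `0`, `1`, `2`. The corner `(v, k)` with `k = 0, 1, 2` is the one just before the edge to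
the child `k` in clockwise order, and `(v, 3)`, which exists only for `v` other than the root, is
the corner between the child `2` and the parent. -/
@[ext] structure Corner where
  /-- the vertex of the corner -/
  v : List (Fin 3)
  /-- the position of the corner at its vertex -/
  k : Fin 4
  /-- the root has three corners only -/
  ok : v = [] → k ≠ Fin.last 3

/-- The next corner in the clockwise contour of the tree. From the corner `(v, i)`, `i < 3`, the
contour follows the edge to the child `i` and arrives at its first corner. From `(j :: u, 3)` it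
follows the edge to the parent `u` and arrives at the corner of `u` just after the edge to the
child `j`. -/
def next (c : Corner) : Corner :=
  if h : c.k = Fin.last 3 then
    match c.v with
    | [] => c
    | j :: u => if hj : u = [] ∧ j = 2 then ⟨[], 0, fun _ => by decide⟩ else
        ⟨u, j.succ, fun hu hk => hj ⟨hu, by
          rw [Fin.ext_iff] at hk ⊢; simp at hk ⊢; omega⟩⟩
  else ⟨(c.k.castPred h) :: c.v, 0, fun h => by simp at h⟩

/-- The labels: `0` at the root, and the label of a child is the label of the parent plus the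
variable of the edge (`D (u, j)` belongs to the edge from `u` to `j :: u`). -/
def label (D : List (Fin 3) × Fin 3 → ℤ) : List (Fin 3) → ℤ
  | [] => 0
  | j :: u => label D u + D (u, j)

/-- The first corner after `c` in the contour whose vertex has label one less than the label of the
vertex of `c`. -/
noncomputable def succ (l : List (Fin 3) → ℤ) (c : Corner) : Corner :=
  next^[sInf {n : ℕ | 1 ≤ n ∧ l (next^[n] c).v = l c.v - 1}] c

/-- The quadrangulation: one edge for every corner `c`, joining the vertex of `c` to the vertex of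
its successor. -/
noncomputable def shiq (l : List (Fin 3) → ℤ) : MGraph (List (Fin 3)) Corner where
  src := Corner.v
  tgt := fun c => (succ l c).v

/-! ### The contour -/

theorem next_child (v : List (Fin 3)) (i : Fin 3) (h : v = [] → i.castSucc ≠ Fin.last 3) :
    next ⟨v, i.castSucc, h⟩ = ⟨i :: v, 0, fun h => by simp at h⟩ := by
  unfold next
  have h1 : i.castSucc ≠ Fin.last 3 := Fin.castSucc_ne_last i
  rw [dif_neg h1]
  simp

theorem next_zero (v : List (Fin 3)) :
    next ⟨v, 0, fun _ => by decide⟩ = ⟨0 :: v, 0, fun h => by simp at h⟩ :=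
  next_child v 0 _

theorem next_parent (u : List (Fin 3)) (j : Fin 3) (hj : ¬ (u = [] ∧ j = 2)) :
    ∃ h, next ⟨j :: u, Fin.last 3, fun h => by simp at h⟩ = ⟨u, j.succ, h⟩ := by
  have : u = [] → j.succ ≠ Fin.last 3 := fun hu hk => hj ⟨hu, by
          rw [Fin.ext_iff] at hk ⊢; simp at hk ⊢; omega⟩
  refine ⟨this, ?_⟩
  unfold next
  simp only [dif_pos]
  rw [dif_neg hj]

theorem next_root : next ⟨[2], Fin.last 3, fun h => by simp at h⟩ = ⟨[], 0, fun _ => by decide⟩ := by
  unfold next
  simp

theorem iter_zero (v : List (Fin 3)) (t : ℕ) :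
    next^[t] ⟨v, 0, fun _ => by decide⟩ = ⟨List.replicate t 0 ++ v, 0, fun _ => by decide⟩ := by
  induction t with
  | zero => rfl
  | succ t ih =>
    rw [Function.iterate_succ_apply', ih, next_zero]
    rfl

/-- every corner is eventually followed by a leftmost ray -/
theorem forward (c : Corner) : ∃ (n : ℕ) (w : List (Fin 3)), ∀ t, next^[n + t] c =
    ⟨List.replicate t 0 ++ w, 0, fun _ => by decide⟩ := by
  obtain ⟨v, k, ok⟩ := c
  induction v generalizing k with
  | nil =>
    obtain ⟨i, rfl⟩ : ∃ i : Fin 3, k = i.castSucc := ⟨k.castPred (ok rfl), by simp⟩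
    refine ⟨1, i :: [], fun t => ?_⟩
    rw [add_comm, Function.iterate_add_apply, Function.iterate_one, next_child, iter_zero]
  | cons j u ih =>
    by_cases hk : k = Fin.last 3
    · subst hk
      by_cases hj : u = [] ∧ j = 2
      · obtain ⟨rfl, rfl⟩ := hj
        refine ⟨1, [], fun t => ?_⟩
        rw [add_comm, Function.iterate_add_apply, Function.iterate_one, next_root, iter_zero]
      · obtain ⟨h, e⟩ := next_parent u j hj
        obtain ⟨n, w, hw⟩ := ih j.succ h
        refine ⟨n + 1, w, fun t => ?_⟩
        rw [show n + 1 + t = (n + t) + 1 by ring, Function.iterate_succ_apply, e, hw]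
    · obtain ⟨i, rfl⟩ : ∃ i : Fin 3, k = i.castSucc := ⟨k.castPred hk, by simp⟩
      refine ⟨1, i :: j :: u, fun t => ?_⟩
      rw [add_comm, Function.iterate_add_apply, Function.iterate_one, next_child, iter_zero]

/-- the previous corner -/
def prev (c : Corner) : Corner :=
  if h : c.k = 0 then
    match c.v with
    | [] => ⟨[2], Fin.last 3, fun h => by simp at h⟩
    | i :: v => ⟨v, i.castSucc, fun _ => Fin.castSucc_ne_last i⟩
  else ⟨(c.k.pred h) :: c.v, Fin.last 3, fun h => by simp at h⟩

theorem prev_next (c : Corner) : prev (next c) = c := by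
  obtain ⟨v, k, ok⟩ := c
  by_cases hk : k = Fin.last 3
  · subst hk
    cases v with
    | nil => exact absurd rfl (ok rfl)
    | cons j u =>
      by_cases hj : u = [] ∧ j = 2
      · obtain ⟨rfl, rfl⟩ := hj
        rw [next_root]
        unfold prev
        simp
      · obtain ⟨h, e⟩ := next_parent u j hj
        rw [e]
        unfold prev
        have : j.succ ≠ 0 := Fin.succ_ne_zero j
        simp [this]
  · obtain ⟨i, rfl⟩ : ∃ i : Fin 3, k = i.castSucc := ⟨k.castPred hk, by simp⟩
    rw [next_child]
    unfold prev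
    simp

theorem prev_succ (u : List (Fin 3)) (j : Fin 3) (h : u = [] → j.succ ≠ Fin.last 3) :
    prev ⟨u, j.succ, h⟩ = ⟨j :: u, Fin.last 3, fun h => by simp at h⟩ := by
  unfold prev
  have : j.succ ≠ 0 := Fin.succ_ne_zero j
  simp [this]

theorem prev_zero (v : List (Fin 3)) (i : Fin 3) :
    prev ⟨i :: v, 0, fun _ => by decide⟩ = ⟨v, i.castSucc, fun _ => Fin.castSucc_ne_last i⟩ := by
  unfold prev
  simp

theorem prev_zero' : prev ⟨[], 0, fun _ => by decide⟩ =
    ⟨[2], Fin.last 3, fun h => by simp at h⟩ := by
  unfold prev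
  simp

theorem prev_last (v : List (Fin 3)) (h : v ≠ []) :
    prev ⟨v, Fin.last 3, fun h' => absurd h' h⟩ = ⟨2 :: v, Fin.last 3, fun h => by simp at h⟩ :=
  prev_succ v 2 _

theorem prev_iter (v : List (Fin 3)) (h : v ≠ []) (t : ℕ) :
    prev^[t] ⟨v, Fin.last 3, fun h' => absurd h' h⟩ =
      ⟨List.replicate t 2 ++ v, Fin.last 3, fun h' => absurd h' (by simp [h])⟩ := by
  induction t with
  | zero => rfl
  | succ t ih =>
    rw [Function.iterate_succ_apply', ih, prev_last _ (by simp [h])]
    rfl

theorem backward (c : Corner) : ∃ (n : ℕ) (w : List (Fin 3)) (hw : w ≠ []), ∀ t, prev^[n + t] c =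
    ⟨List.replicate t 2 ++ w, Fin.last 3, fun h' => absurd h' (by simp [hw])⟩ := by
  obtain ⟨v, k, ok⟩ := c
  induction v generalizing k with
  | nil =>
    by_cases hk : k = 0
    · subst hk
      refine ⟨1, [2], by simp, fun t => ?_⟩
      rw [add_comm, Function.iterate_add_apply, Function.iterate_one, prev_zero', prev_iter]
      simp
    · obtain ⟨j, rfl⟩ : ∃ j : Fin 3, k = j.succ := ⟨k.pred hk, by simp⟩
      refine ⟨1, [j], by simp, fun t => ?_⟩
      rw [add_comm, Function.iterate_add_apply, Function.iterate_one, prev_succ, prev_iter]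
      simp
  | cons i u ih =>
    by_cases hk : k = 0
    · subst hk
      obtain ⟨n, w, hw, h⟩ := ih i.castSucc (fun _ => Fin.castSucc_ne_last i)
      refine ⟨n + 1, w, hw, fun t => ?_⟩
      rw [show n + 1 + t = (n + t) + 1 by ring, Function.iterate_succ_apply, prev_zero, h]
    · obtain ⟨j, rfl⟩ : ∃ j : Fin 3, k = j.succ := ⟨k.pred hk, by simp⟩
      refine ⟨1, j :: i :: u, by simp, fun t => ?_⟩
      rw [add_comm, Function.iterate_add_apply, Function.iterate_one, prev_succ, prev_iter]
      simp


/-! ### Labels along the contour -/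

/-- discrete intermediate value property -/
theorem ivt (a : ℕ → ℤ) (h : ∀ t, |a (t + 1) - a t| ≤ 1) (m n : ℕ) (hmn : m ≤ n) (x : ℤ)
    (hx : (a m ≤ x ∧ x ≤ a n) ∨ (a n ≤ x ∧ x ≤ a m)) : ∃ t, m ≤ t ∧ t ≤ n ∧ a t = x := by
  induction n, hmn using Nat.le_induction with
  | base => exact ⟨m, le_rfl, le_rfl, by omega⟩
  | succ n hmn ih =>
    by_cases h1 : (a m ≤ x ∧ x ≤ a n) ∨ (a n ≤ x ∧ x ≤ a m)
    · obtain ⟨t, h2, h3, h4⟩ := ih h1
      exact ⟨t, h2, by omega, h4⟩
    · have := abs_le.1 (h n)
      exact ⟨n + 1, by omega, le_rfl, by omega⟩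

/-- The labels have steps of size at most one and are unbounded along the outermost rays. -/
structure Good (l : List (Fin 3) → ℤ) : Prop where
  step : ∀ u (j : Fin 3), |l (j :: u) - l u| ≤ 1
  low : ∀ (j : Fin 3) v M, ∃ n, l (List.replicate n j ++ v) ≤ M
  high : ∀ (j : Fin 3) v M, ∃ n, M ≤ l (List.replicate n j ++ v)

variable {l : List (Fin 3) → ℤ}

theorem next_step (hl : Good l) (c : Corner) : |l (next c).v - l c.v| ≤ 1 := by
  obtain ⟨v, k, ok⟩ := c
  by_cases hk : k = Fin.last 3
  · subst hk
    cases v with
    | nil => exact absurd rfl (ok rfl)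
    | cons j u =>
      by_cases hj : u = [] ∧ j = 2
      · obtain ⟨rfl, rfl⟩ := hj
        rw [next_root]
        have := hl.step [] 2
        rw [abs_sub_comm]; exact this
      · obtain ⟨h, e⟩ := next_parent u j hj
        rw [e, abs_sub_comm]
        exact hl.step u j
  · obtain ⟨i, rfl⟩ : ∃ i : Fin 3, k = i.castSucc := ⟨k.castPred hk, by simp⟩
    rw [next_child]
    exact hl.step v i

theorem iter_step (hl : Good l) (c : Corner) (t : ℕ) :
    |l (next^[t + 1] c).v - l (next^[t] c).v| ≤ 1 := by
  rw [Function.iterate_succ_apply']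
  exact next_step hl _

theorem next_prev (c : Corner) : next (prev c) = c := by
  obtain ⟨v, k, ok⟩ := c
  by_cases hk : k = 0
  · subst hk
    cases v with
    | nil => rw [prev_zero', next_root]
    | cons i v => rw [prev_zero, next_child]
  · obtain ⟨j, rfl⟩ : ∃ j : Fin 3, k = j.succ := ⟨k.pred hk, by simp⟩
    rw [prev_succ]
    have hj : ¬ (v = [] ∧ j = 2) := by
      rintro ⟨rfl, rfl⟩
      exact ok rfl rfl
    obtain ⟨h, e⟩ := next_parent v j hj
    rw [e]

theorem prev_step (hl : Good l) (c : Corner) (t : ℕ) :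
    |l (prev^[t + 1] c).v - l (prev^[t] c).v| ≤ 1 := by
  rw [Function.iterate_succ_apply']
  have := next_step hl (prev (prev^[t] c))
  rw [next_prev, abs_sub_comm] at this
  exact this

theorem exists_low (hl : Good l) (c : Corner) (M : ℤ) : ∃ n, l (next^[n] c).v ≤ M := by
  obtain ⟨n, w, h⟩ := forward c
  obtain ⟨t, ht⟩ := hl.low 0 w M
  exact ⟨n + t, by rw [h]; exact ht⟩

/-- every corner has a successor -/
theorem exists_succ (hl : Good l) (c : Corner) :
    ∃ n, 1 ≤ n ∧ l (next^[n] c).v = l c.v - 1 := by
  obtain ⟨n, hn⟩ := exists_low hl c (l c.v - 1)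
  obtain ⟨t, -, -, ht⟩ := ivt (fun t => l (next^[t] c).v) (iter_step hl c) 0 n (Nat.zero_le n)
    (l c.v - 1) (Or.inr ⟨hn, by simp⟩)
  refine ⟨t, ?_, ht⟩
  rcases Nat.eq_zero_or_pos t with h | h
  · subst h
    simp only [Function.iterate_zero, id_eq] at ht
    omega
  · exact h

/-- the number of steps to the successor -/
noncomputable def tau (l : List (Fin 3) → ℤ) (c : Corner) : ℕ :=
  sInf {n : ℕ | 1 ≤ n ∧ l (next^[n] c).v = l c.v - 1}

theorem succ_eq (l : List (Fin 3) → ℤ) (c : Corner) : succ l c = next^[tau l c] c := rfl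

theorem tau_spec (hl : Good l) (c : Corner) :
    1 ≤ tau l c ∧ l (next^[tau l c] c).v = l c.v - 1 :=
  Nat.sInf_mem (s := {n : ℕ | 1 ≤ n ∧ l (next^[n] c).v = l c.v - 1}) (exists_succ hl c)

theorem tau_min (c : Corner) (n : ℕ) (h1 : 1 ≤ n) (h2 : l (next^[n] c).v = l c.v - 1) :
    tau l c ≤ n := Nat.sInf_le ⟨h1, h2⟩

theorem tau_gt (hl : Good l) (c : Corner) (n : ℕ) (h1 : n < tau l c) :
    l c.v ≤ l (next^[n] c).v := by
  by_contra hcon
  push Not at hcon
  obtain ⟨t, -, htn, ht⟩ := ivt (fun t => l (next^[t] c).v) (iter_step hl c) 0 n (Nat.zero_le n)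
    (l c.v - 1) (Or.inr ⟨by omega, by simp⟩)
  have ht1 : 1 ≤ t := by
    rcases Nat.eq_zero_or_pos t with h | h
    · subst h
      simp only [Function.iterate_zero, id_eq] at ht
      omega
    · exact h
  have := tau_min c t ht1 ht
  omega

theorem prev_iter_next (n : ℕ) (c : Corner) : prev^[n] (next^[n] c) = c :=
  Function.LeftInverse.iterate (g := prev) (f := next) prev_next n c

/-- only finitely many corners have a given successor -/
theorem finite_succ (hl : Good l) (b : Corner) : {c | succ l c = b}.Finite := by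
  -- a previous corner with the same label
  have hN : ∃ N, 1 ≤ N ∧ l (prev^[N] b).v = l b.v := by
    obtain ⟨n, w, hw, h⟩ := backward b
    have h1 : ∃ T, 1 ≤ T ∧ l (prev^[T] b).v ≤ l b.v := by
      obtain ⟨t, ht⟩ := hl.low 2 (2 :: w) (l b.v)
      refine ⟨n + (t + 1), by omega, ?_⟩
      rw [h]
      simp only
      rw [List.replicate_succ', List.append_assoc]
      exact ht
    have h2 : ∃ T, 1 ≤ T ∧ l b.v ≤ l (prev^[T] b).v := by
      obtain ⟨t, ht⟩ := hl.high 2 (2 :: w) (l b.v)
      refine ⟨n + (t + 1), by omega, ?_⟩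
      rw [h]
      simp only
      rw [List.replicate_succ', List.append_assoc]
      exact ht
    obtain ⟨T1, h11, h12⟩ := h1
    obtain ⟨T2, h21, h22⟩ := h2
    rcases le_total T1 T2 with h | h
    · obtain ⟨t, h3, -, h4⟩ := ivt (fun t => l (prev^[t] b).v) (prev_step hl b) T1 T2 h (l b.v)
        (Or.inl ⟨h12, h22⟩)
      exact ⟨t, by omega, h4⟩
    · obtain ⟨t, h3, -, h4⟩ := ivt (fun t => l (prev^[t] b).v) (prev_step hl b) T2 T1 h (l b.v)
        (Or.inr ⟨h12, h22⟩)
      exact ⟨t, by omega, h4⟩
  obtain ⟨N, hN1, hN2⟩ := hN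
  refine ((Set.finite_le_nat N).image fun n => prev^[n] b).subset ?_
  intro c hc
  have hc' : next^[tau l c] c = b := hc
  have hcl := (tau_spec hl c).2
  rw [hc'] at hcl
  refine ⟨tau l c, ?_, by rw [← hc']; exact prev_iter_next _ _⟩
  by_contra hcon
  have hcon' : N < tau l c := by simpa using hcon
  have e : next^[N] (next^[tau l c - N] c) = b := by
    rw [← Function.iterate_add_apply, show N + (tau l c - N) = tau l c by omega, hc']
  have e2 : next^[tau l c - N] c = prev^[N] b := by rw [← e, prev_iter_next]
  have := tau_min (l := l) c (tau l c - N) (by omega) (by rw [e2, hN2, hcl])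
  omega

/-! ### Local finiteness and connectedness -/

theorem corners_finite (v : List (Fin 3)) : {c : Corner | c.v = v}.Finite := by
  refine Set.Finite.of_finite_image (f := fun c => c.k) (Set.toFinite _) ?_
  intro c hc c' hc' h
  ext1
  · rw [hc, hc']
  · exact h

theorem deg_lt (hl : Good l) (v : List (Fin 3)) : (shiq l).deg v < ⊤ := by
  unfold MGraph.deg
  have h1 : {e | (shiq l).src e = v}.Finite := corners_finite v
  have h2 : {e | (shiq l).tgt e = v}.Finite := by
    have : {e | (shiq l).tgt e = v} = ⋃ b ∈ {b : Corner | b.v = v}, {c | succ l c = b} := by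
      ext c
      simp [shiq]
    rw [this]
    exact Set.Finite.biUnion (corners_finite v) fun b _ => finite_succ hl b
  rw [ENat.add_lt_top]
  exact ⟨h1.encard_lt_top, h2.encard_lt_top⟩

/-- abbreviation for connections in the quadrangulation -/
def Conn (l : List (Fin 3) → ℤ) (x y : List (Fin 3)) : Prop :=
  Relation.ReflTransGen (fun a b => a ∈ (Set.univ : Set (List (Fin 3))) ∧
    b ∈ (Set.univ : Set (List (Fin 3))) ∧ (shiq l).Adj a b) x y

theorem Conn.symm {x y : List (Fin 3)} (h : Conn l x y) : Conn l y x := by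
  induction h with
  | refl => exact Relation.ReflTransGen.refl
  | tail _ h ih =>
    refine Relation.ReflTransGen.head ⟨Set.mem_univ _, Set.mem_univ _, ?_⟩ ih
    obtain ⟨e, he⟩ := h.2.2
    exact ⟨e, he.symm⟩

theorem conn_succ (c : Corner) : Conn l c.v (succ l c).v :=
  Relation.ReflTransGen.single ⟨Set.mem_univ _, Set.mem_univ _, c, Or.inl ⟨rfl, rfl⟩⟩

/-- consecutive corners of the contour have connected vertices -/
theorem conn_next (hl : Good l) (c : Corner) : Conn l c.v (next c).v := by
  have hstep := abs_le.1 (next_step hl c)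
  rcases (by omega : l (next c).v = l c.v - 1 ∨ l (next c).v = l c.v ∨
    l (next c).v = l c.v + 1) with h | h | h
  · -- the next corner is the successor
    have h1 : tau l c = 1 := le_antisymm (tau_min c 1 le_rfl h) (tau_spec hl c).1
    have h2 := conn_succ (l := l) c
    rw [succ_eq, h1] at h2
    exact h2
  · -- both have the same successor
    have e : succ l c = succ l (next c) := by
      have hs := tau_spec hl c
      have hs' := tau_spec hl (next c)
      have h1 : tau l c ≤ tau l (next c) + 1 := by
        refine tau_min c _ (by omega) ?_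
        rw [Function.iterate_succ_apply, hs'.2, h]
      have h0 : tau l c ≠ 1 := by
        intro h1
        have := hs.2
        rw [h1] at this
        simp only [Function.iterate_one] at this
        omega
      have h2 : tau l (next c) ≤ tau l c - 1 := by
        refine tau_min (next c) _ (by omega) ?_
        rw [← Function.iterate_succ_apply, show (tau l c - 1).succ = tau l c by omega, hs.2, h]
      rw [succ_eq, succ_eq, ← Function.iterate_succ_apply]
      congr 1
      omega
    exact (conn_succ c).trans (e ▸ (conn_succ (next c)).symm)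
  · -- the successor of `c` is the second successor of the next corner
    have e : succ l c = succ l (succ l (next c)) := by
      have hs := tau_spec hl c
      have hs' := tau_spec hl (next c)
      have hs'' := tau_spec hl (succ l (next c))
      rw [succ_eq l (next c)] at hs''
      -- the label of the first successor
      have hlab : l (next^[tau l (next c)] (next c)).v = l c.v := by rw [hs'.2, h]; ring
      rw [hlab] at hs''
      set a := tau l (next c) with ha
      set b := tau l (next^[a] (next c)) with hb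
      have e1 : next^[b] (next^[a] (next c)) = next^[b + a + 1] c := by
        rw [Function.iterate_succ_apply, Function.iterate_add_apply]
      have h1 : tau l c ≤ b + a + 1 := by
        refine tau_min c _ (by omega) ?_
        rw [← e1]; exact hs''.2
      -- before `a + 1` steps the label is larger
      have h2 : a + 1 < tau l c := by
        by_contra hcon
        have hcon' : tau l c - 1 ≤ a := by omega
        have e2 : next^[tau l c] c = next^[tau l c - 1] (next c) := by
          rw [← Function.iterate_succ_apply]; congr 1; omega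
        rcases Nat.lt_or_ge (tau l c - 1) a with h3 | h3
        · have := tau_gt hl (next c) _ h3
          rw [← e2, hs.2] at this
          omega
        · have h4 : tau l c - 1 = a := by omega
          have := hs.2
          rw [e2, h4, hlab] at this
          omega
      have h3 : b ≤ tau l c - (a + 1) := by
        refine tau_min _ _ (by omega) ?_
        rw [hlab]
        have : next^[tau l c - (a + 1)] (next^[a] (next c)) = next^[tau l c] c := by
          rw [← Function.iterate_add_apply, ← Function.iterate_succ_apply]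
          congr 1; omega
        rw [this, hs.2]
      rw [succ_eq, succ_eq, succ_eq, ← ha, ← hb, e1]
      congr 1
      omega
    have h1 : Conn l (next c).v (succ l c).v := by
      rw [e]
      exact (conn_succ (next c)).trans (conn_succ _)
    exact (conn_succ c).trans h1.symm

theorem conn_root (hl : Good l) (v : List (Fin 3)) : Conn l [] v := by
  induction v with
  | nil => exact Relation.ReflTransGen.refl
  | cons i v ih =>
    refine ih.trans ?_
    have := conn_next hl ⟨v, i.castSucc, fun _ => Fin.castSucc_ne_last i⟩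
    rw [next_child] at this
    exact this

theorem connected (hl : Good l) : (shiq l).ConnectedSet Set.univ :=
  fun x _ y _ => (conn_root hl x).symm.trans (conn_root hl y)


/-! ### Expansion -/

/-- the successor of a corner just before a child lies in the subtree of this child -/
theorem succ_child (hl : Good l) (v : List (Fin 3)) (i : Fin 3) :
    (i :: v) <:+ (succ l ⟨v, i.castSucc, fun _ => Fin.castSucc_ne_last i⟩).v := by
  have h1 := (tau_spec hl ⟨v, i.castSucc, fun _ => Fin.castSucc_ne_last i⟩).1
  rw [succ_eq]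
  obtain ⟨n, hn⟩ : ∃ n, tau l ⟨v, i.castSucc, fun _ => Fin.castSucc_ne_last i⟩ = n + 1 :=
    ⟨tau l ⟨v, i.castSucc, fun _ => Fin.castSucc_ne_last i⟩ - 1, by omega⟩
  rw [hn, Function.iterate_succ_apply, next_child, iter_zero]
  exact List.suffix_append _ _

theorem count (S : Finset (List (Fin 3))) : S.Nonempty →
    ((S ×ˢ (Finset.univ : Finset (Fin 3))).filter
      fun p => ∃ w ∈ S, (p.2 :: p.1) <:+ w).card + 1 ≤ S.card := by
  classical
  refine Finset.induction_on_max_value (motive := fun S => S.Nonempty →
    ((S ×ˢ (Finset.univ : Finset (Fin 3))).filter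
      fun p => ∃ w ∈ S, (p.2 :: p.1) <:+ w).card + 1 ≤ S.card) List.length S (by simp) ?_
  intro a S haS hmax ih _
  rw [Finset.card_insert_of_notMem haS]
  rcases S.eq_empty_or_nonempty with rfl | hS
  · have : ((insert a ∅ : Finset (List (Fin 3))) ×ˢ (Finset.univ : Finset (Fin 3))).filter
        (fun p => ∃ w ∈ (insert a ∅ : Finset (List (Fin 3))), (p.2 :: p.1) <:+ w) = ∅ := by
      rw [Finset.filter_eq_empty_iff]
      rintro ⟨v, i⟩ hp ⟨w, hw, h⟩
      simp at hp hw
      subst hp; subst hw
      have := h.length_le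
      simp at this
    rw [this]; simp
  · have ih' := ih hS
    set f := (S ×ˢ (Finset.univ : Finset (Fin 3))).filter (fun p => ∃ w ∈ S, (p.2 :: p.1) <:+ w)
      with hf
    set g := (S ×ˢ (Finset.univ : Finset (Fin 3))).filter
      (fun p => (p.2 :: p.1) <:+ a ∧ ¬ ∃ w ∈ S, (p.2 :: p.1) <:+ w) with hg
    have hsub : ((insert a S) ×ˢ (Finset.univ : Finset (Fin 3))).filter
        (fun p => ∃ w ∈ insert a S, (p.2 :: p.1) <:+ w) ⊆ f ∪ g := by
      rintro ⟨v, i⟩ hp
      rw [Finset.mem_filter, Finset.mem_product] at hp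
      obtain ⟨⟨hv, -⟩, w, hw, h⟩ := hp
      simp only at hv h
      have hlen := h.length_le
      simp only [List.length_cons] at hlen
      have hwa : w.length ≤ a.length := by
        rcases Finset.mem_insert.1 hw with rfl | hw
        · exact le_rfl
        · exact hmax w hw
      have hvS : v ∈ S := by
        rcases Finset.mem_insert.1 hv with rfl | hv
        · omega
        · exact hv
      rw [Finset.mem_union, hf, hg, Finset.mem_filter, Finset.mem_filter, Finset.mem_product]
      by_cases hex : ∃ w ∈ S, (i :: v) <:+ w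
      · exact Or.inl ⟨⟨hvS, Finset.mem_univ _⟩, hex⟩
      · refine Or.inr ⟨⟨hvS, Finset.mem_univ _⟩, ?_, hex⟩
        rcases Finset.mem_insert.1 hw with rfl | hw
        · exact h
        · exact absurd ⟨w, hw, h⟩ hex
    have hg1 : g.card ≤ 1 := by
      rw [Finset.card_le_one]
      rintro ⟨v, i⟩ hp ⟨v', i'⟩ hp'
      rw [hg, Finset.mem_filter, Finset.mem_product] at hp hp'
      obtain ⟨⟨hv, -⟩, hs, hn⟩ := hp
      obtain ⟨⟨hv', -⟩, hs', hn'⟩ := hp'
      simp only at hv hs hn hv' hs' hn'
      have key : ∀ (v v' : List (Fin 3)) (i i' : Fin 3), v' ∈ S → (i :: v) <:+ a →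
          (i' :: v') <:+ a → (¬ ∃ w ∈ S, (i :: v) <:+ w) → ¬ v.length < v'.length := by
        intro v v' i i' hv' hs hs' hn hlt
        apply hn
        refine ⟨v', hv', ?_⟩
        refine List.suffix_of_suffix_length_le hs ((List.suffix_cons i' v').trans hs') ?_
        simp only [List.length_cons]; omega
      have h1 := key v v' i i' hv' hs hs' hn
      have h2 := key v' v i' i hv hs' hs hn'
      have h3 : (i :: v) <:+ (i' :: v') := List.suffix_of_suffix_length_le hs hs' (by
        simp only [List.length_cons]; omega)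
      have h4 := h3.eq_of_length (by simp only [List.length_cons]; omega)
      rw [List.cons.injEq] at h4
      rw [Prod.mk.injEq]
      exact ⟨h4.2, h4.1⟩
    have := (Finset.card_le_card hsub).trans (Finset.card_union_le f g)
    omega

theorem sum_encard {V E : Type} (f : E → V) (S : Finset V) :
    ∑ v ∈ S, {e | f e = v}.encard = {e | f e ∈ S}.encard := by
  classical
  induction S using Finset.induction_on with
  | empty => simp
  | insert a S ha ih =>
    rw [Finset.sum_insert ha, ih]
    have : {e | f e ∈ insert a S} = {e | f e = a} ∪ {e | f e ∈ S} := by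
      ext e; simp [Finset.mem_insert]
    rw [this, Set.encard_union_eq]
    rw [Set.disjoint_left]
    intro e he he'
    have h1 : f e = a := he
    have h2 : f e ∈ S := he'
    exact ha (h1 ▸ h2)

theorem expansion (hl : Good l) (S : Finset (List (Fin 3))) (hS : S.Nonempty) :
    (shiq l).vol S ≤ 3 * ((shiq l).bdry S).encard := by
  classical
  -- outgoing boundary
  set bo : Set Corner := {c | c.v ∈ S ∧ (succ l c).v ∉ S} with hbo
  set bi : Set Corner := {c | c.v ∉ S ∧ (succ l c).v ∈ S} with hbi
  set oi : Set Corner := {c | c.v ∈ S ∧ (succ l c).v ∈ S} with hoi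
  have e1 : (shiq l).bdry S = bo ∪ bi := rfl
  have d1 : Disjoint bo bi := by
    rw [Set.disjoint_left]; rintro c ⟨h, -⟩ ⟨h', -⟩; exact h' h
  have e2 : {c : Corner | c.v ∈ S} = oi ∪ bo := by
    ext c; simp only [hoi, hbo, Set.mem_union]
    constructor
    · intro h
      by_cases h' : (succ l c).v ∈ S
      · exact Or.inl ⟨h, h'⟩
      · exact Or.inr ⟨h, h'⟩
    · rintro (h | h) <;> exact h.1
  have d2 : Disjoint oi bo := by
    rw [Set.disjoint_left]; rintro c ⟨-, h⟩ ⟨-, h'⟩; exact h' h
  have e3 : {c : Corner | (succ l c).v ∈ S} = oi ∪ bi := by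
    ext c; simp only [hoi, hbi, Set.mem_union]
    constructor
    · intro h
      by_cases h' : c.v ∈ S
      · exact Or.inl ⟨h', h⟩
      · exact Or.inr ⟨h', h⟩
    · rintro (h | h) <;> exact h.2
  have d3 : Disjoint oi bi := by
    rw [Set.disjoint_left]; rintro c ⟨h, -⟩ ⟨h', -⟩; exact h' h
  have hvol : (shiq l).vol S = (oi.encard + bo.encard) + (oi.encard + bi.encard) := by
    unfold MGraph.vol MGraph.deg
    rw [Finset.sum_add_distrib, sum_encard, sum_encard]
    have a1 : {e | (shiq l).src e ∈ S} = oi ∪ bo := e2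
    have a2 : {e | (shiq l).tgt e ∈ S} = oi ∪ bi := e3
    rw [a1, a2, Set.encard_union_eq d2, Set.encard_union_eq d3]
  have hb : ((shiq l).bdry S).encard = bo.encard + bi.encard := by
    rw [e1, Set.encard_union_eq d1]
  -- upper bound for the number of corners
  have h4 : oi.encard + bo.encard ≤ ((4 * S.card : ℕ) : ℕ∞) := by
    rw [← Set.encard_union_eq d2, ← e2]
    have hinj : Set.InjOn (fun c : Corner => (c.v, c.k)) {c : Corner | c.v ∈ S} := by
      intro c _ c' _ h
      rw [Prod.mk.injEq] at h
      ext1
      · exact h.1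
      · exact h.2
    rw [← hinj.encard_image]
    have hsub : (fun c : Corner => (c.v, c.k)) '' {c : Corner | c.v ∈ S} ⊆
        ((S ×ˢ (Finset.univ : Finset (Fin 4)) : Finset _) : Set (List (Fin 3) × Fin 4)) := by
      rintro _ ⟨c, hc, rfl⟩
      rw [Finset.mem_coe, Finset.mem_product]
      exact ⟨hc, Finset.mem_univ _⟩
    refine (Set.encard_le_encard hsub).trans ?_
    rw [Set.encard_coe_eq_coe_finsetCard, Finset.card_product]
    simp [mul_comm]
  -- lower bound for the outgoing boundary
  have h2 : ((2 * S.card + 1 : ℕ) : ℕ∞) ≤ bo.encard := by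
    set A := (S ×ˢ (Finset.univ : Finset (Fin 3))).filter
      (fun p => ¬ ∃ w ∈ S, (p.2 :: p.1) <:+ w) with hA
    have hcard : 2 * S.card + 1 ≤ A.card := by
      have h1 := count S hS
      have h2 : ((S ×ˢ (Finset.univ : Finset (Fin 3))).filter
          fun p => ∃ w ∈ S, (p.2 :: p.1) <:+ w).card + A.card = S.card * 3 := by
        rw [hA, Finset.card_filter_add_card_filter_not, Finset.card_product]
        simp
      omega
    let φ : List (Fin 3) × Fin 3 → Corner := fun p =>
      ⟨p.1, p.2.castSucc, fun _ => Fin.castSucc_ne_last p.2⟩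
    have hφ : Function.Injective φ := by
      intro p q h
      have h1 : (φ p).v = (φ q).v := by rw [h]
      have h2 : (φ p).k = (φ q).k := by rw [h]
      have h3 : p.1 = q.1 := h1
      have h4 : p.2.castSucc = q.2.castSucc := h2
      exact Prod.ext h3 (Fin.castSucc_injective _ h4)
    have hsub : φ '' (A : Set (List (Fin 3) × Fin 3)) ⊆ bo := by
      rintro _ ⟨p, hp, rfl⟩
      rw [Finset.mem_coe, hA, Finset.mem_filter, Finset.mem_product] at hp
      refine ⟨hp.1.1, fun h => hp.2 ⟨_, h, succ_child hl p.1 p.2⟩⟩
    calc ((2 * S.card + 1 : ℕ) : ℕ∞) ≤ (A.card : ℕ∞) := by exact_mod_cast hcard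
      _ = (φ '' (A : Set (List (Fin 3) × Fin 3))).encard := by
          rw [hφ.encard_image, Set.encard_coe_eq_coe_finsetCard]
      _ ≤ bo.encard := Set.encard_le_encard hsub
  have hoib : oi.encard ≤ bo.encard := by
    have hfo : oi.encard ≠ ⊤ := by
      intro h; rw [h] at h4; simp at h4
      exact absurd h4 (by exact_mod_cast ENat.natCast_ne_top (4 * S.card))
    have hfb : bo.encard ≠ ⊤ := by
      intro h; rw [h] at h4; simp at h4
      exact absurd h4 (by exact_mod_cast ENat.natCast_ne_top (4 * S.card))
    lift oi.encard to ℕ using hfo with x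
    lift bo.encard to ℕ using hfb with y
    norm_cast at h4 h2 ⊢
    omega
  rw [hvol, hb]
  calc (oi.encard + bo.encard) + (oi.encard + bi.encard)
      ≤ (bo.encard + bo.encard) + (bo.encard + bi.encard) := by gcongr
    _ ≤ (bo.encard + bo.encard) + (bo.encard + bi.encard) + (bi.encard + bi.encard) := le_self_add
    _ = 3 * (bo.encard + bi.encard) := by ring

theorem vol_ne_zero (S : Finset (List (Fin 3))) (hS : S.Nonempty) : (shiq l).vol S ≠ 0 := by
  obtain ⟨v, hv⟩ := hS
  intro h
  unfold MGraph.vol at h
  rw [Finset.sum_eq_zero_iff] at h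
  have h1 := h v hv
  unfold MGraph.deg at h1
  rw [add_eq_zero] at h1
  have h2 := h1.1
  rw [Set.encard_eq_zero] at h2
  have : (⟨v, (0 : Fin 3).castSucc, fun _ => Fin.castSucc_ne_last 0⟩ : Corner) ∈
    {e | (shiq l).src e = v} := rfl
  rw [h2] at this
  exact this

theorem third_le (hl : Good l) (o : List (Fin 3)) : 1 / 3 ≤ (shiq l).anchoredExpansion o := by
  unfold MGraph.anchoredExpansion
  refine le_liminf_of_le (by isBoundedDefault) (Eventually.of_forall fun n => ?_)
  refine le_iInf fun S => le_iInf fun hS => ?_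
  have h1 := expansion hl S ⟨o, hS.1⟩
  have h2 := vol_ne_zero (l := l) S ⟨o, hS.1⟩
  have h3 : (((shiq l).vol S : ℕ∞) : ℝ≥0∞) ≤ 3 * ((((shiq l).bdry S).encard : ℕ∞) : ℝ≥0∞) := by
    have := ENat.toENNReal_le.2 h1
    simpa using this
  have h4 : (((shiq l).vol S : ℕ∞) : ℝ≥0∞) ≠ 0 := by simpa using h2
  have h5 : (((shiq l).vol S : ℕ∞) : ℝ≥0∞) ≠ ⊤ := by simpa using hS.2.2.2.ne
  rw [ENNReal.le_div_iff_mul_le (Or.inl h4) (Or.inl h5), one_div, mul_comm, ← div_eq_mul_inv]
  exact ENNReal.div_le_of_le_mul' h3

/-! ### The random labels are good -/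

theorem label_iter (D : List (Fin 3) × Fin 3 → ℤ) (j : Fin 3) (v : List (Fin 3)) (n : ℕ) :
    label D (List.replicate n j ++ v) =
      label D v + ∑ k ∈ Finset.range n, D (List.replicate k j ++ v, j) := by
  induction n with
  | zero => simp
  | succ n ih =>
    rw [Finset.sum_range_succ, List.replicate_succ, List.cons_append, label, ih]
    ring

theorem ae_good {Ω : Type*} [MeasurableSpace Ω] (P : Measure Ω) [IsProbabilityMeasure P]
    (D : List (Fin 3) × Fin 3 → Ω → ℤ) (hm : ∀ e, Measurable (D e)) (hi : iIndepFun D P)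
    (hu : ∀ e, ∀ k : ℤ, k = -1 ∨ k = 0 ∨ k = 1 → P {ω | D e ω = k} = 1 / 3) :
    ∀ᵐ ω ∂P, Good (label fun e => D e ω) := by
  have h1 : ∀ᵐ ω ∂P, ∀ e, D e ω = -1 ∨ D e ω = 0 ∨ D e ω = 1 := by
    rw [ae_all_iff]
    exact fun e => Pool.Agent.V11324.Osc.ae_values (D e) (hm e) (hu e)
  have h2 : ∀ᵐ ω ∂P, ∀ (j : Fin 3) (v : List (Fin 3)),
      (∀ M : ℤ, ∃ n, M ≤ ∑ k ∈ Finset.range (n + 1), D (List.replicate k j ++ v, j) ω) ∧
      (∀ M : ℤ, ∃ n, ∑ k ∈ Finset.range (n + 1), D (List.replicate k j ++ v, j) ω ≤ M) := by
    rw [ae_all_iff]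
    intro j
    rw [ae_all_iff]
    intro v
    have hinj : Function.Injective (fun k : ℕ => ((List.replicate k j ++ v, j) :
        List (Fin 3) × Fin 3)) := by
      intro k k' h
      have := congrArg (fun p : List (Fin 3) × Fin 3 => p.1.length) h
      simpa using this
    exact Pool.Agent.V11324.Osc.unbounded (fun k => D (List.replicate k j ++ v, j))
      (fun k => hm _) (hi.precomp hinj) (fun k => hu _)
  filter_upwards [h1, h2] with ω h1 h2
  constructor
  · intro u j
    simp only [label]
    rcases h1 (u, j) with h | h | h <;> rw [h] <;> simp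
  · intro j v M
    obtain ⟨n, hn⟩ := (h2 j v).2 (M - label (fun e => D e ω) v)
    exact ⟨n + 1, by rw [label_iter]; linarith⟩
  · intro j v M
    obtain ⟨n, hn⟩ := (h2 j v).1 (M - label (fun e => D e ω) v)
    exact ⟨n + 1, by rw [label_iter]; linarith⟩

/-- **Theorem.** Let the edge variables of the full ternary tree be independent and uniform on
`{-1, 0, 1}`. Almost surely every corner has a successor, the resulting multigraph is connected and
locally finite, every finite nonempty vertex set `S` satisfies `|S|_deg ≤ 3 |∂S|`, and the anchored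
expansion constant is at least `1/3`, in particular positive. -/
theorem result {Ω : Type*} [MeasurableSpace Ω] (P : Measure Ω) [IsProbabilityMeasure P]
    (D : List (Fin 3) × Fin 3 → Ω → ℤ) (hm : ∀ e, Measurable (D e)) (hi : iIndepFun D P)
    (hu : ∀ e, ∀ k : ℤ, k = -1 ∨ k = 0 ∨ k = 1 → P {ω | D e ω = k} = 1 / 3) :
    ∀ᵐ ω ∂P,
      (∀ c : Corner, ∃ n, 1 ≤ n ∧ label (fun e => D e ω) (next^[n] c).v =
        label (fun e => D e ω) c.v - 1) ∧
      (shiq (label fun e => D e ω)).ConnectedSet Set.univ ∧
      (∀ v, (shiq (label fun e => D e ω)).deg v < ⊤) ∧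
      (∀ S : Finset (List (Fin 3)), S.Nonempty → (shiq (label fun e => D e ω)).vol S ≤
        3 * ((shiq (label fun e => D e ω)).bdry S).encard) ∧
      1 / 3 ≤ (shiq (label fun e => D e ω)).anchoredExpansion [] := by
  filter_upwards [ae_good P D hm hi hu] with ω hl
  exact ⟨exists_succ hl, connected hl, deg_lt hl, expansion hl, third_le hl []⟩

end Pool.Agent.Results.MP_b23abe_pr.ShiqExpansion
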